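import Pool.Agent.Helper92.Ru.GoalsS

/-! Packet S13: compound matrices. -/

set_option autoImplicit false

namespace Pool.Agent.Helper26.Ru

open Pool.Agent.Helper92.Ru

section

variable {k : Type} [Field k] {r N : ℕ}

theorem cmpd_mul (hCB : CauchyBinet) (A B : Matrix (Fin N) (Fin N) k) :
    cmpd r (A * B) = cmpd r A * cmpd r B := by
  ext I K
  rw [Matrix.mul_apply]
  have h := hCB k r N (A.submatrix I.emb id) (B.submatrix id K.emb)
  have h1 : A.submatrix I.emb id * B.submatrix id K.emb = (A * B).submatrix I.emb K.emb := by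
    ext a b
    simp [Matrix.mul_apply]
  rw [h1] at h
  exact h

theorem cmpd_one : cmpd r (1 : Matrix (Fin N) (Fin N) k) = 1 := by
  ext I K
  show ((1 : Matrix (Fin N) (Fin N) k).submatrix I.emb K.emb).det = _
  by_cases h : I = K
  · subst h
    rw [Matrix.submatrix_one _ I.emb.injective, Matrix.det_one, Matrix.one_apply_eq]
  · rw [Matrix.one_apply_ne h]
    have hex : ∃ i ∈ I.1, i ∉ K.1 := by
      by_contra hcon
      push Not at hcon
      apply h
      apply Subtype.ext
      exact Finset.eq_of_subset_of_card_le hcon (by rw [I.2, K.2])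
    obtain ⟨i, hi, hiK⟩ := hex
    have hi' : i ∈ Set.range (I.1.orderEmbOfFin I.2) := by
      rw [Finset.range_orderEmbOfFin]
      exact hi
    obtain ⟨a, ha⟩ := hi'
    refine Matrix.det_eq_zero_of_row_eq_zero a ?_
    intro b
    rw [Matrix.submatrix_apply, Matrix.one_apply_ne]
    intro hab
    apply hiK
    have h2 : K.emb b ∈ K.1 := Finset.orderEmbOfFin_mem K.1 K.2 b
    rw [← hab] at h2
    have h3 : I.emb a = i := ha
    rwa [h3] at h2

theorem cmpd_det (hCB : CauchyBinet) (A : Matrix (Fin N) (Fin N) k) (hA : A.det ≠ 0) :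
    (cmpd r A).det ≠ 0 := by
  intro h
  have h1 : cmpd r A * cmpd r A⁻¹ = 1 := by
    rw [← cmpd_mul hCB, Matrix.mul_nonsing_inv A (isUnit_iff_ne_zero.2 hA), cmpd_one]
  have h2 := congrArg Matrix.det h1
  rw [Matrix.det_mul, h, zero_mul, Matrix.det_one] at h2
  exact zero_ne_one h2

theorem cmpd_mulVec (hCB : CauchyBinet) (A : Matrix (Fin N) (Fin N) k) (x : Fin r → Fin N → k) :
    (cmpd r A).mulVec (wd x) = wd (fun b => A.mulVec (x b)) := by
  ext I
  have h := hCB k r N (A.submatrix I.emb id) (Matrix.of fun i b => x b i)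
  have h1 : A.submatrix I.emb id * (Matrix.of fun i b => x b i) =
      Matrix.of fun a b => A.mulVec (x b) (I.emb a) := by
    ext a b
    simp [Matrix.mul_apply, Matrix.mulVec, dotProduct]
  rw [h1] at h
  exact h.symm

theorem wd_linearIndependent (hCB : CauchyBinet) (x : Fin N → Fin N → k)
    (hx : LinearIndependent k x) :
    LinearIndependent k (fun I : JJ r N => wd (fun b => x (I.emb b))) := by
  let X : Matrix (Fin N) (Fin N) k := Matrix.of fun i j => x j i
  have hX : X.det ≠ 0 := by
    have h1 : LinearIndependent k (Matrix.transpose X).row := hx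
    rw [Matrix.linearIndependent_rows_iff_isUnit, Matrix.isUnit_iff_isUnit_det,
      Matrix.det_transpose] at h1
    exact h1.ne_zero
  have h2 := cmpd_det (r := r) hCB X hX
  have h3 : LinearIndependent k (cmpd r X).col :=
    Matrix.linearIndependent_cols_iff_isUnit.2
      ((Matrix.isUnit_iff_isUnit_det _).2 (isUnit_iff_ne_zero.2 h2))
  exact h3

end

theorem cmpdBasic : CauchyBinet → CmpdBasic := by
  intro hCB k _ r N
  exact ⟨cmpd_mul hCB, cmpd_one, cmpd_det hCB, cmpd_mulVec hCB, wd_linearIndependent hCB⟩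

end Pool.Agent.Helper26.Ru
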