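import Pool.Agent.Helper92.Ru.GoalsR

/-! Packet R15: the induction step and the conclusion of Roth's lemma. -/

set_option autoImplicit false

open MvPolynomial

namespace Pool.Agent.Helper26.Ru

open Pool.Agent.Helper92.Ru

/-- lower bound for the sum in the induction step -/
theorem sum_lower (s r : ℕ) (τ x : ℝ) (hr : 1 ≤ r) (hs : s ≤ r + 1) (hs1 : 1 ≤ s)
    (hτ0 : 0 < τ) (hτ1 : τ ≤ 1) (hx : τ ≤ x) :
    s * τ ^ 2 / 8 ≤ ∑ j : Fin s, max 0 (x - (j : ℝ) / (r : ℝ)) := by
  have hr0 : (0 : ℝ) < r := by exact_mod_cast hr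
  set N : ℕ := min s (⌊τ * r / 2⌋₊ + 1) with hN
  have e1 : ∑ j : Fin s, max 0 (x - (j : ℝ) / (r : ℝ)) =
      ∑ j ∈ Finset.range s, max 0 (x - (j : ℝ) / (r : ℝ)) :=
    Fin.sum_univ_eq_sum_range (fun j => max 0 (x - (j : ℝ) / (r : ℝ))) s
  rw [e1]
  have e2 : ∑ j ∈ Finset.range N, max 0 (x - (j : ℝ) / (r : ℝ)) ≤
      ∑ j ∈ Finset.range s, max 0 (x - (j : ℝ) / (r : ℝ)) := by
    apply Finset.sum_le_sum_of_subset_of_nonneg
    · intro j hj
      rw [Finset.mem_range] at hj ⊢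
      exact lt_of_lt_of_le hj (min_le_left _ _)
    · intro j _ _
      exact le_max_left _ _
  have e3 : (N : ℝ) * (τ / 2) ≤ ∑ j ∈ Finset.range N, max 0 (x - (j : ℝ) / (r : ℝ)) := by
    have h := Finset.card_nsmul_le_sum (Finset.range N)
      (fun j : ℕ => max 0 (x - (j : ℝ) / (r : ℝ))) (τ / 2) ?_
    · rw [Finset.card_range, nsmul_eq_mul] at h
      exact h
    · intro j hj
      rw [Finset.mem_range] at hj
      have hj1 : j < ⌊τ * r / 2⌋₊ + 1 := lt_of_lt_of_le hj (min_le_right _ _)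
      have hj2 : j ≤ ⌊τ * r / 2⌋₊ := by omega
      have hj3 : (j : ℝ) ≤ τ * r / 2 := by
        have h0 : (0 : ℝ) ≤ τ * r / 2 := by positivity
        calc (j : ℝ) ≤ (⌊τ * r / 2⌋₊ : ℝ) := by exact_mod_cast hj2
          _ ≤ τ * r / 2 := Nat.floor_le h0
      have hj4 : (j : ℝ) / r ≤ τ / 2 := by
        rw [div_le_iff₀ hr0]
        linarith
      have : τ / 2 ≤ x - (j : ℝ) / r := by linarith
      exact this.trans (le_max_right _ _)
  have e4 : (s : ℝ) * (τ / 4) ≤ N := by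
    have hsr : (s : ℝ) ≤ 2 * r := by
      have : s ≤ 2 * r := by omega
      exact_mod_cast this
    rw [hN, Nat.cast_min]
    apply le_min
    · have h0 : (0 : ℝ) ≤ s := Nat.cast_nonneg s
      nlinarith
    · have h1 : τ * r / 2 < (⌊τ * r / 2⌋₊ : ℝ) + 1 := Nat.lt_floor_add_one _
      push_cast
      nlinarith
  have hs0 : (0 : ℝ) ≤ s := Nat.cast_nonneg s
  nlinarith

/-- rescaling the index -/
theorem indGe_scale {k : Type} [Field k] {σ : Type} [Fintype σ] (r : σ → ℕ) (ξ : σ → k)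
    (a : ℝ) (p : MvPolynomial σ k) (s : ℕ) (hs : 1 ≤ s) (h : IndGe r ξ a p) :
    IndGe (fun i => s * r i) ξ (a / s) p := by
  intro e he
  have h1 := h e he
  have hs0 : (0 : ℝ) < s := by exact_mod_cast hs
  rw [div_le_iff₀ hs0, Finset.sum_mul]
  refine h1.trans (le_of_eq ?_)
  refine Finset.sum_congr rfl fun i _ => ?_
  push_cast
  rw [div_mul_eq_mul_div]
  by_cases hr : (r i : ℝ) = 0
  · rw [hr]; simp
  · field_simp

theorem log_PH_nonneg {k : Type} [Field k] [NumberField k] {σ : Type} (p : MvPolynomial σ k) :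
    0 ≤ Real.log (PH p) :=
  Real.log_nonneg (Height.one_le_mulHeight _)

theorem roth_zero : RothStmt 0 := by
  intro k _ _ σ hσ
  refine ⟨1, 1, one_pos, le_refl _, one_pos, ?_⟩
  intro r R ξ p θ hp _ _ _ _ hind
  obtain ⟨c, hc⟩ : ∃ c : k, p = C c := ⟨_, MvPolynomial.eq_C_of_isEmpty p⟩
  have hs : shiftP ξ p = C c := by
    rw [hc, shiftP, aeval_C]
    rfl
  have hc0 : c ≠ 0 := by
    intro h
    apply hp
    rw [hc, h, C_0]
  have hmem : (0 : Fin 0 →₀ ℕ) ∈ (shiftP ξ p).support := by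
    rw [hs, mem_support_iff, coeff_C, if_pos rfl]
    exact hc0
  have := hind 0 hmem
  simp only [Finset.univ_eq_empty, Finset.sum_empty] at this
  linarith

theorem roth_step (hA : RothAlg) (h1 : RothStmt 1) (m : ℕ) (hm : RothStmt m) :
    RothStmt (m + 1) := by
  intro k _ _ σ hσ
  set τ : ℝ := min (3 * σ / 4) 1 with hτ
  have hτ0 : 0 < τ := lt_min (by linarith) one_pos
  have hτ1 : τ ≤ 1 := min_le_right _ _
  have hτ2 : τ ≤ 3 * σ / 4 := min_le_left _ _
  have hσ' : 0 < τ ^ 2 / 32 := by positivity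
  obtain ⟨om1, C1, hom1, hom1', hC1, H1⟩ := hm k (τ ^ 2 / 32) hσ'
  obtain ⟨om2, C2, hom2, hom2', hC2, H2⟩ := h1 k (τ ^ 2 / 32) hσ'
  set D : ℝ := (Module.finrank ℚ k : ℝ) with hD
  set C0 : ℝ := (2 * ((m : ℝ) + 1) + 1) * D * Real.log 2 with hC0
  have hD0 : 0 ≤ D := Nat.cast_nonneg _
  have hC00 : 0 ≤ C0 := by
    have := Real.log_nonneg (x := 2) (by norm_num)
    positivity
  have hmax : 0 < max C1 C2 := lt_max_of_lt_left hC1
  refine ⟨min om1 (min (σ / 4) 1), max C1 C2 * (1 + C0), ?_, ?_, ?_, ?_⟩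
  · exact lt_min hom1 (lt_min (by linarith) one_pos)
  · exact (min_le_right _ _).trans (min_le_right _ _)
  · positivity
  intro r R ξ p θ hp hr hdeg hdec hht hind
  by_contra hcon
  push Not at hcon
  set ω : ℝ := min om1 (min (σ / 4) 1) with hω
  have hω0 : 0 < ω := lt_min hom1 (lt_min (by linarith) one_pos)
  have hω1 : ω ≤ om1 := min_le_left _ _
  have hω2 : ω ≤ σ / 4 := (min_le_right _ _).trans (min_le_left _ _)
  obtain ⟨s, U, V, hs1, hsr, hU, hV, hdU, hdV, hheight, a, b, ha, hb, hsum, hIU, hIV⟩ :=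
    hA k m r R ξ p θ ω hp hr hdeg
      (fun h => hdec (Fin.castSucc h) (Fin.last m) (Fin.castSucc_lt_last h)) hω0.le hind
  have hs0 : (0 : ℝ) < s := by exact_mod_cast hs1
  have hR0 : (0 : ℝ) ≤ R := Nat.cast_nonneg R
  have hlp : 0 ≤ Real.log (PH p) := log_PH_nonneg p
  have hlU : 0 ≤ Real.log (PH U) := log_PH_nonneg U
  have hlV : 0 ≤ Real.log (PH V) := log_PH_nonneg V
  have hheight' : Real.log (PH U) + Real.log (PH V) ≤ s * (Real.log (PH p) + C0 * R) := by
    rw [hC0, hD]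
    exact hheight
  -- the height condition, for a general constant `c ≤ max C1 C2`
  have hgen : ∀ (c L : ℝ) (h : Fin (m + 1)), 0 < c → c ≤ max C1 C2 →
      L ≤ s * (Real.log (PH p) + C0 * R) →
      c * (L + (s * R : ℝ)) ≤ (s * r h : ℝ) * Height.logHeight₁ (ξ h) := by
    intro c L h hc0 hc hL
    have k1 : L + (s * R : ℝ) ≤ s * ((1 + C0) * (Real.log (PH p) + R)) := by
      have : 0 ≤ (s : ℝ) * (C0 * Real.log (PH p)) := by positivity
      nlinarith
    have k2 : 0 ≤ s * ((1 + C0) * (Real.log (PH p) + R)) := by positivity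
    calc c * (L + (s * R : ℝ)) ≤ c * (s * ((1 + C0) * (Real.log (PH p) + R))) :=
          mul_le_mul_of_nonneg_left k1 hc0.le
      _ ≤ max C1 C2 * (s * ((1 + C0) * (Real.log (PH p) + R))) :=
          mul_le_mul_of_nonneg_right hc k2
      _ = s * (max C1 C2 * (1 + C0) * (Real.log (PH p) + R)) := by ring
      _ ≤ s * (r h * Height.logHeight₁ (ξ h)) :=
          mul_le_mul_of_nonneg_left (hht h) hs0.le
      _ = (s * r h : ℝ) * Height.logHeight₁ (ξ h) := by ring
  have hr' : ∀ h : Fin (m + 1), 1 ≤ s * r h ∧ s * r h ≤ s * R := by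
    intro h
    obtain ⟨u1, u2⟩ := hr h
    exact ⟨Nat.mul_pos hs1 u1, Nat.mul_le_mul_left _ u2⟩
  have hAU : a / s ≤ τ ^ 2 / 32 := by
    refine H1 (fun h => s * r (Fin.castSucc h)) (s * R) (fun h => ξ (Fin.castSucc h)) U (a / s)
      hU (fun h => hr' _) hdU ?_ ?_ ?_
    · intro h h' hh
      have k1 := hdec (Fin.castSucc h) (Fin.castSucc h') (Fin.castSucc_lt_castSucc_iff.mpr hh)
      have hrh : (0 : ℝ) ≤ r (Fin.castSucc h) := Nat.cast_nonneg _
      push_cast
      calc (s : ℝ) * r (Fin.castSucc h') ≤ s * (ω * r (Fin.castSucc h)) :=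
            mul_le_mul_of_nonneg_left k1 hs0.le
        _ ≤ s * (om1 * r (Fin.castSucc h)) :=
            mul_le_mul_of_nonneg_left (mul_le_mul_of_nonneg_right hω1 hrh) hs0.le
        _ = om1 * (s * r (Fin.castSucc h)) := by ring
    · intro h
      have := hgen C1 (Real.log (PH U)) (Fin.castSucc h) hC1 (le_max_left _ _) (by linarith)
      push_cast
      exact this
    · exact indGe_scale _ _ a U s hs1 hIU
  have hBV : b / s ≤ τ ^ 2 / 32 := by
    refine H2 (fun _ => s * r (Fin.last m)) (s * R) (fun _ => ξ (Fin.last m)) V (b / s)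
      hV (fun h => hr' _) ?_ ?_ ?_ ?_
    · intro h
      rw [Subsingleton.elim h 0]
      exact hdV
    · intro h h' hh
      exact absurd hh (by rw [Subsingleton.elim h h']; exact lt_irrefl _)
    · intro h
      have := hgen C2 (Real.log (PH V)) (Fin.last m) hC2 (le_max_right _ _) (by linarith)
      push_cast
      exact this
    · exact indGe_scale _ _ b V s hs1 hIV
  have hlow := sum_lower s (r (Fin.last m)) τ (θ - ω) (hr _).1 hsr hs1 hτ0 hτ1 (by linarith)
  rw [div_le_iff₀ hs0] at hAU hBV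
  have : s * τ ^ 2 / 8 ≤ a + b := hlow.trans hsum
  have hpos : 0 < (s : ℝ) * τ ^ 2 := by positivity
  linarith

theorem rothAll : RothAll := by
  intro hA h1 m
  induction m with
  | zero => exact roth_zero
  | succ m ih => exact roth_step hA h1 m ih

end Pool.Agent.Helper26.Ru
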